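import Pool.Agent.helper32.NN.Spec

/-!
# Project nn (MP_3938c6_al): module POS
-/

set_option autoImplicit false

open Submodule

noncomputable section

namespace Pool.Agent.NN

universe u v

theorem POS_ins (D : Finset ℝ) (d δ : ℝ)
    (h0 : δ ∉ AddSubmonoid.closure (D : Set ℝ))
    (h : ¬ ∃ n : ℕ, 1 ≤ n ∧ ∃ s ∈ AddSubmonoid.closure (D : Set ℝ), n * d + s = δ) :
    δ ∉ AddSubmonoid.closure ((insert d D : Finset ℝ) : Set ℝ) := by
  intro hc
  rw [Finset.coe_insert, Set.insert_eq, AddSubmonoid.closure_union, AddSubmonoid.mem_sup] at hc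
  obtain ⟨y, hy, s, hs, hsum⟩ := hc
  rw [AddSubmonoid.mem_closure_singleton] at hy
  obtain ⟨n, rfl⟩ := hy
  rcases Nat.eq_zero_or_pos n with hn | hn
  · subst hn
    rw [zero_smul, zero_add] at hsum
    exact h0 (hsum ▸ hs)
  · exact h ⟨n, hn, s, hs, by rw [← hsum, nsmul_eq_mul]⟩

/-- POS -/
theorem POS (hCHO : CHO_stmt.{u, v}) (hTKP : TKP_stmt.{u, v}) (hGEN : GEN_stmt.{u, v}) :
    POS_stmt.{u, v} := by
  classical
  intro K U _ _ _ A hA 𝒜 hG hpos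
  have hle : ∀ r, 𝒜 r ≤ A := fun r => hG.sup ▸ le_iSup 𝒜 r
  have hAb : A ≠ ⊥ := by
    have := hA.notn 1
    rwa [pow_one] at this
  obtain ⟨δ, hδ⟩ : ∃ δ, 𝒜 δ ≠ ⊥ := by
    by_contra hc
    push Not at hc
    apply hAb
    rw [← hG.sup]
    exact iSup_eq_bot.2 hc
  have hδ0 : 0 < δ := hpos δ hδ
  let St : Type := {D : Finset ℝ // (∀ d ∈ D, 0 < d) ∧ δ ∉ AddSubmonoid.closure (D : Set ℝ)}
  have hstep : ∀ (k : ℕ) (D : St), ∃ D' : St, D.1 ⊆ D'.1 ∧ ∃ d ∈ D'.1, ∃ x ∈ 𝒜 d,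
      x ∉ TT A k := by
    intro k D
    obtain ⟨hid, hne, _, _⟩ := hTKP K U A hA k
    obtain ⟨d, hd0, ⟨x, hx, hxT⟩, hnot⟩ :=
      hCHO K U A hA 𝒜 hG hpos (TT A k) hid hne D.1 δ D.2.1 hδ0
    refine ⟨⟨insert d D.1, ?_, POS_ins D.1 d δ D.2.2 hnot⟩, ?_, d, ?_, x, hx, hxT⟩
    · intro e he
      rcases Finset.mem_insert.1 he with h | h
      · rw [h]; exact hd0
      · exact D.2.1 e h
    · exact Finset.subset_insert _ _
    · exact Finset.mem_insert_self _ _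
  choose nx hnx1 hnx2 using hstep
  let D0 : St := ⟨∅, by simp, by
    rw [Finset.coe_empty, AddSubmonoid.closure_empty, AddSubmonoid.mem_bot]
    exact hδ0.ne'⟩
  let Ds : ℕ → St := fun n => Nat.rec D0 (fun k D => nx k D) n
  have hDs : ∀ n, Ds (n + 1) = nx n (Ds n) := fun n => rfl
  have hmono : Monotone (fun n => (Ds n).1) := by
    apply monotone_nat_of_le_succ
    intro n
    rw [hDs]
    exact hnx1 n (Ds n)
  have hx : ∀ k, ∃ d ∈ (Ds (k + 1)).1, ∃ x ∈ 𝒜 d, x ∉ TT A k := by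
    intro k
    rw [hDs]
    exact hnx2 k (Ds k)
  choose d hd x hxd hxT using hx
  let C : ℕ → AddSubmonoid ℝ := fun n => AddSubmonoid.closure ((Ds n).1 : Set ℝ)
  have hCmono : Monotone C := fun a b hab =>
    AddSubmonoid.closure_mono (Finset.coe_subset.2 (hmono hab))
  let M : AddSubmonoid ℝ := ⨆ n, C n
  have hM : δ ∉ M := by
    intro hc
    rw [AddSubmonoid.mem_iSup_of_directed (hCmono.directed_le)] at hc
    obtain ⟨n, hn⟩ := hc
    exact (Ds n).2.2 hn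
  have hdM : ∀ k, d k ∈ M := fun k =>
    (le_iSup C (k + 1)) (AddSubmonoid.subset_closure (hd k))
  let S : Submodule K U := ⨆ (r : ℝ) (_ : r ∈ M), 𝒜 r
  have hrS : ∀ r ∈ M, 𝒜 r ≤ S := fun r hr => le_iSup₂_of_le r hr le_rfl
  have hSA : S ≤ A := iSup₂_le fun r _ => hle r
  have hSS : S * S ≤ S := by
    have h1 : ∀ r ∈ M, 𝒜 r * S ≤ S := by
      intro r hr
      change 𝒜 r * (⨆ (s : ℝ) (_ : s ∈ M), 𝒜 s) ≤ S
      rw [Submodule.mul_iSup]
      refine iSup_le fun s => ?_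
      rw [Submodule.mul_iSup]
      refine iSup_le fun hs => ?_
      exact (hG.mul r s).trans (hrS _ (M.add_mem hr hs))
    change (⨆ (r : ℝ) (_ : r ∈ M), 𝒜 r) * S ≤ S
    rw [Submodule.iSup_mul]
    refine iSup_le fun r => ?_
    rw [Submodule.iSup_mul]
    exact iSup_le fun hr => h1 r hr
  have hXA : Set.range x ⊆ (A : Set U) := by
    rintro _ ⟨k, rfl⟩
    exact hle _ (hxd k)
  have hXS : Set.range x ⊆ (S : Set U) := by
    rintro _ ⟨k, rfl⟩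
    exact hrS _ (hdM k) (hxd k)
  have hgen := ((hGEN K U A hA).1 (Set.range x) hXA).2 (fun k hk => hxT k (hk ⟨k, rfl⟩))
  have hSeq : S = A := hgen S hSA hSS hXS
  apply hδ
  have hdis := hG.ind δ
  have hSle : S ≤ ⨆ (j : ℝ) (_ : j ≠ δ), 𝒜 j := by
    refine iSup₂_le fun r hr => ?_
    refine le_iSup₂_of_le r ?_ le_rfl
    intro hc
    exact hM (hc ▸ hr)
  have h2 : 𝒜 δ ≤ ⨆ (j : ℝ) (_ : j ≠ δ), 𝒜 j := (hle δ).trans (hSeq ▸ hSle)
  exact le_bot_iff.1 (hdis le_rfl h2)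

end Pool.Agent.NN
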